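import Pool.Agent.Y843.AC.Top
import Pool.Agent.Y843.AC.Gold
import Pool.Agent.Y843.HS.PartA
import Pool.Agent.Y843.HS.CorC

/-!
# Progressions in subsets of a fixed sifted set of dimension `r`, in arbitrary windows
-/

set_option autoImplicit false

namespace Pool.Agent.Q53.NP

open Finset Filter
open Pool.Agent.Y843.HS (Pr VV Pr_mem Pr_prime)
open Pool.Agent.Y843.AC

theorem VV_anti {Z : ℕ → Finset ℕ} {a b c : ℕ} (h : b ≤ c) (hZ : ∀ p ∈ Pr b c, ∀ x ∈ Z p, x < p)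
    (h0 : 0 ≤ VV Z a b) (hab : a ≤ b) : VV Z a c ≤ VV Z a b := by
  rw [← Pool.Agent.Y843.HS.VV_split Z hab h]
  apply mul_le_of_le_one_right h0
  unfold VV
  apply prod_le_one
  · intro p hp
    have hpp := Pr_prime hp
    have h1 : (Z p).card ≤ p := by
      have : Z p ⊆ range p := fun x hx => mem_range.2 (hZ p hp x hx)
      simpa using card_le_card this
    have h2 : (0 : ℝ) < p := by exact_mod_cast hpp.pos
    rw [sub_nonneg, div_le_one h2]
    exact_mod_cast h1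
  · intro p hp
    have : (0 : ℝ) ≤ ((Z p).card : ℝ) / p := by positivity
    linarith

/-- a system of classes of dimension `r` -/
structure Dim (d r : ℕ) (Z : ℕ → Finset ℕ) (v Cv : ℝ) : Prop where
  few : ∀ p : ℕ, p.Prime → (Z p).card ≤ d ∧ (Z p).card < p ∧ ∀ c ∈ Z p, c < p
  v0 : 0 < v
  c0 : 0 < Cv
  lo : ∀ y : ℕ, 3 ≤ y → v / Real.log y ^ r ≤ VV Z 0 y
  hi : ∀ y : ℕ, 3 ≤ y → VV Z 0 y ≤ Cv / Real.log y ^ r

/-- `n` avoids all the classes modulo the primes up to `X ^ (1 / u)` -/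
def Rg (Z : ℕ → Finset ℕ) (u X n : ℕ) : Prop :=
  ∀ p : ℕ, p.Prime → (p : ℝ) ≤ (X : ℝ) ^ (1 / (u : ℝ)) → n % p ∉ Z p

/-- the sieve product at `X ^ (1 / u)` -/
theorem VV_root {d r : ℕ} {Z : ℕ → Finset ℕ} {v Cv : ℝ} (h : Dim d r Z v Cv) (u : ℕ) (hu : 1 ≤ u) :
    ∃ X₀ : ℕ, ∀ X : ℕ, X₀ ≤ X → 3 ≤ X ∧
      v / Real.log X ^ r ≤ VV Z 0 ⌊(X : ℝ) ^ (1 / (u : ℝ))⌋₊ ∧
      VV Z 0 ⌊(X : ℝ) ^ (1 / (u : ℝ))⌋₊ ≤ Cv * (2 * u) ^ r / Real.log X ^ r := by
  have hu0 : (0 : ℝ) < u := by exact_mod_cast hu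
  have e := ((tendsto_rpow_atTop (show (0 : ℝ) < 1 / u by positivity)).comp
    (tendsto_natCast_atTop_atTop (R := ℝ))).eventually (eventually_ge_atTop (4 : ℝ))
  rw [eventually_atTop] at e
  obtain ⟨X₁, h1⟩ := e
  refine ⟨max X₁ 3, fun X hX => ?_⟩
  have hX1 := h1 X ((le_max_left _ _).trans hX)
  have hX3 : 3 ≤ X := (le_max_right _ _).trans hX
  simp only [Function.comp] at hX1
  obtain ⟨w, hw⟩ : ∃ w : ℝ, w = (X : ℝ) ^ (1 / (u : ℝ)) := ⟨_, rfl⟩
  rw [← hw] at hX1 ⊢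
  have hXr : (1 : ℝ) ≤ X := by exact_mod_cast (show 1 ≤ X by omega)
  have hX0 : (0 : ℝ) < X := by linarith
  have hwu : w ^ u = X := by
    rw [hw, ← Real.rpow_natCast, ← Real.rpow_mul hX0.le, one_div, inv_mul_cancel₀ hu0.ne', Real.rpow_one]
  have hwX : w ≤ X := by
    rw [← hwu]
    exact le_self_pow₀ (by linarith) (by omega)
  have hw3 : 3 ≤ ⌊w⌋₊ := Nat.le_floor (by push_cast; linarith)
  have hfX : ⌊w⌋₊ ≤ X := by
    have := Nat.floor_le_floor hwX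
    rwa [Nat.floor_natCast] at this
  have hlogX : 0 < Real.log X := Real.log_pos (by exact_mod_cast (show 1 < X by omega))
  have hlogf : 0 < Real.log ⌊w⌋₊ := Real.log_pos (by exact_mod_cast (show 1 < ⌊w⌋₊ by omega))
  have hlog1 : Real.log ⌊w⌋₊ ≤ Real.log X := Real.log_le_log (by exact_mod_cast (show 0 < ⌊w⌋₊ by omega))
    (by exact_mod_cast hfX)
  have hlog2 : Real.log X ≤ 2 * u * Real.log ⌊w⌋₊ := by
    have hlt := Nat.lt_floor_add_one w
    have h5 : (X : ℝ) ≤ ((⌊w⌋₊ : ℝ)) ^ (2 * u) := by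
      have h6 : w ≤ (⌊w⌋₊ : ℝ) ^ 2 := by
        have : (3 : ℝ) ≤ ⌊w⌋₊ := by exact_mod_cast hw3
        nlinarith
      calc (X : ℝ) = w ^ u := hwu.symm
        _ ≤ ((⌊w⌋₊ : ℝ) ^ 2) ^ u := pow_le_pow_left₀ (by linarith) h6 u
        _ = _ := by rw [← pow_mul]
    calc Real.log X ≤ Real.log ((⌊w⌋₊ : ℝ) ^ (2 * u)) := Real.log_le_log hX0 h5
      _ = _ := by rw [Real.log_pow]; push_cast; ring
  refine ⟨hX3, ?_, ?_⟩
  · refine le_trans ?_ (h.lo _ hw3)
    apply div_le_div_of_nonneg_left h.v0.le (by positivity)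
    exact pow_le_pow_left₀ hlogf.le hlog1 r
  · refine (h.hi _ hw3).trans ?_
    rw [div_le_div_iff₀ (by positivity) (by positivity)]
    calc Cv * Real.log X ^ r ≤ Cv * (2 * u * Real.log ⌊w⌋₊) ^ r :=
          mul_le_mul_of_nonneg_left (pow_le_pow_left₀ hlogX.le hlog2 r) h.c0.le
      _ = _ := by rw [mul_pow]; ring

/-- **progressions in rough sets in windows** -/
theorem core {d r : ℕ} {Z : ℕ → Finset ℕ} {v Cv : ℝ} (h : Dim d r Z v Cv) (k u : ℕ) (hk : 1 ≤ k)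
    (hu : 1 ≤ u) :
    (∃ C : ℝ, 0 < C ∧ ∃ B X₀ : ℕ, ∀ X : ℕ, X₀ ≤ X → ∀ y D : ℕ, Real.log X ^ B ≤ D →
      ∀ S : Finset ℕ, S ⊆ Ioc y (y + X) → (∀ m ∈ S, Rg Z u X m) →
      ((APs k D S).card : ℝ) ≤ C * (X * D / Real.log X ^ (r * k))) ∧
    (∀ δ : ℝ, 0 < δ → ∃ c : ℝ, 0 < c ∧ ∃ B X₀ : ℕ, ∀ X : ℕ, X₀ ≤ X → ∀ y D : ℕ,
      Real.log X ^ B ≤ D → D ≤ X → ∀ S : Finset ℕ, S ⊆ Ioc y (y + X) → (∀ m ∈ S, Rg Z u X m) →
      (δ * (X / Real.log X ^ r) ≤ S.card → c * (X * D / Real.log X ^ (r * k)) ≤ ((APs k D S).card : ℝ)) ∧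
      (δ * (X * D / Real.log X ^ (r * k)) ≤ ((APs k D S).card : ℝ) →
        c * (X / Real.log X ^ r) ≤ S.card)) := by
  obtain ⟨X₁, hX₁⟩ := VV_root h u hu
  have hv := h.v0
  have hc := h.c0
  have hu0 : (0 : ℝ) < u := by exact_mod_cast hu
  obtain ⟨E, hE⟩ : ∃ E : ℝ, E = Cv * (2 * u) ^ r := ⟨_, rfl⟩
  have hE0 : 0 < E := by rw [hE]; positivity
  have hOK : ∀ X : ℕ, OK d (1 / (u : ℝ)) X Z := fun X p hp _ => h.few p hp
  constructor
  · obtain ⟨C, hC, B, X₀, h0⟩ := upa_all d k (1 / (u : ℝ)) hk (by positivity)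
    refine ⟨C * E ^ k, by positivity, B, max X₀ X₁, ?_⟩
    intro X hX y D hD S hS hR
    obtain ⟨k1, k2, k3⟩ := hX₁ X ((le_max_right _ _).trans hX)
    rw [← hE] at k3
    have hlog : 0 < Real.log X := Real.log_pos (by exact_mod_cast (show 1 < X by omega))
    have h1 := h0 X y D ((le_max_left _ _).trans hX) hD Z (hOK X) S hS (fun m hm => hR m hm)
    have h2 : 0 ≤ VV Z 0 ⌊(X : ℝ) ^ (1 / (u : ℝ))⌋₊ := le_trans (by positivity) k2
    calc ((APs k D S).card : ℝ) ≤ C * X * D * VV Z 0 ⌊(X : ℝ) ^ (1 / (u : ℝ))⌋₊ ^ k := h1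
      _ ≤ C * X * D * (E / Real.log X ^ r) ^ k :=
          mul_le_mul_of_nonneg_left (pow_le_pow_left₀ h2 k3 k) (by positivity)
      _ = C * E ^ k * (X * D / Real.log X ^ (r * k)) := by rw [div_pow, ← pow_mul]; ring
  · intro δ hδ
    obtain ⟨ca, hca, Ba, Xa, ha⟩ := cnt_all d k (1 / (u : ℝ)) (δ / E) hk (by positivity) (by positivity)
    obtain ⟨cb, hcb, Bb, Xb, hb⟩ := conv_all d k (1 / (u : ℝ)) (δ / E ^ k) hk (by positivity) (by positivity)
    refine ⟨min (ca * v ^ k) (cb * v), lt_min (by positivity) (by positivity), max Ba Bb,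
      max (max Xa Xb) X₁, ?_⟩
    intro X hX y D hD hDX S hS hR
    obtain ⟨k1, k2, k3⟩ := hX₁ X ((le_max_right _ _).trans hX)
    rw [← hE] at k3
    have hXa : Xa ≤ X := (le_max_left _ _).trans ((le_max_left _ _).trans hX)
    have hXb : Xb ≤ X := (le_max_right _ _).trans ((le_max_left _ _).trans hX)
    have hlog1 : 1 ≤ Real.log X := by
      have h1 : Real.exp 1 ≤ X := by
        have h2 : (3 : ℝ) ≤ X := by exact_mod_cast k1
        linarith [Real.exp_one_lt_d9]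
      rw [← Real.log_exp 1]
      exact Real.log_le_log (Real.exp_pos 1) h1
    have hDa : Real.log X ^ Ba ≤ D := (pow_le_pow_right₀ hlog1 (le_max_left _ _)).trans hD
    have hDb : Real.log X ^ Bb ≤ D := (pow_le_pow_right₀ hlog1 (le_max_right _ _)).trans hD
    have h2 : 0 ≤ VV Z 0 ⌊(X : ℝ) ^ (1 / (u : ℝ))⌋₊ := le_trans (by positivity) k2
    have hlog0 : 0 < Real.log X := by linarith
    constructor
    · intro h3
      have h4 := ha X y D hXa hDa hDX Z (hOK X) S hS (fun m hm => hR m hm) (by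
        refine le_trans ?_ h3
        calc δ / E * X * VV Z 0 ⌊(X : ℝ) ^ (1 / (u : ℝ))⌋₊ ≤ δ / E * X * (E / Real.log X ^ r) :=
              mul_le_mul_of_nonneg_left k3 (by positivity)
          _ = δ * (X / Real.log X ^ r) := by field_simp)
      refine le_trans ?_ h4
      have h5 := pow_le_pow_left₀ (show 0 ≤ v / Real.log X ^ r by positivity) k2 k
      calc min (ca * v ^ k) (cb * v) * (X * D / Real.log X ^ (r * k))
          ≤ ca * v ^ k * (X * D / Real.log X ^ (r * k)) :=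
            mul_le_mul_of_nonneg_right (min_le_left _ _) (by positivity)
        _ = ca * X * D * (v / Real.log X ^ r) ^ k := by rw [div_pow, ← pow_mul]; ring
        _ ≤ _ := mul_le_mul_of_nonneg_left h5 (by positivity)
    · intro h3
      have h6 := pow_le_pow_left₀ h2 k3 k
      have h4 := hb X y D hXb hDb Z (hOK X) S hS (fun m hm => hR m hm) (by
        refine le_trans ?_ h3
        calc δ / E ^ k * X * D * VV Z 0 ⌊(X : ℝ) ^ (1 / (u : ℝ))⌋₊ ^ k
            ≤ δ / E ^ k * X * D * (E / Real.log X ^ r) ^ k := mul_le_mul_of_nonneg_left h6 (by positivity)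
          _ = δ * (X * D / Real.log X ^ (r * k)) := by rw [div_pow, ← pow_mul]; field_simp)
      refine le_trans ?_ h4
      calc min (ca * v ^ k) (cb * v) * (X / Real.log X ^ r) ≤ cb * v * (X / Real.log X ^ r) :=
            mul_le_mul_of_nonneg_right (min_le_right _ _) (by positivity)
        _ = cb * X * (v / Real.log X ^ r) := by ring
        _ ≤ _ := mul_le_mul_of_nonneg_left k2 (by positivity)

end Pool.Agent.Q53.NP
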