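import Pool.Agent.Q53.NP.Pol

/-!
# Consequences for systems of polynomials
-/

set_option autoImplicit false

namespace Pool.Agent.Q53.NP

open Finset Filter Polynomial
open Pool.Agent.Y843.AC
open Pool.Agent.W123.RU.Poly (Sys Q)

variable {ι : Type} [Fintype ι]

/-- `n` is a term of a progression of `k` terms in `S` with a difference at most `w` -/
def OnAP (k : ℕ) (w : ℝ) (S : Finset ℕ) (n : ℕ) : Prop :=
  ∃ a d : ℕ, 1 ≤ d ∧ (d : ℝ) ≤ w ∧ (∀ j < k, a + j * d ∈ S) ∧ ∃ j < k, n = a + j * d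

theorem log_le_self (B : ℕ) : ∃ X₀ : ℕ, ∀ X : ℕ, X₀ ≤ X → 3 ≤ X ∧ Real.log X ^ B ≤ X ∧ 2 ≤ Real.log X := by
  obtain ⟨X₁, h1⟩ := log_small 1 B (show (0 : ℝ) < 1 by norm_num)
  have h2 := (Real.tendsto_log_atTop.comp (tendsto_natCast_atTop_atTop (R := ℝ))).eventually
    (eventually_ge_atTop (2 : ℝ))
  rw [eventually_atTop] at h2
  obtain ⟨X₂, h2⟩ := h2
  refine ⟨max X₁ (max X₂ 3), fun X hX => ⟨(le_max_right _ _).trans ((le_max_right _ _).trans hX), ?_, ?_⟩⟩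
  · have := h1 X ((le_max_left _ _).trans hX)
    rwa [one_mul, Real.rpow_one] at this
  · exact h2 X ((le_max_left _ _).trans ((le_max_right _ _).trans hX))

open Classical in
/-- almost all elements lie on narrow progressions -/
theorem almost_all (f : ι → ℤ[X]) (hf : Sys f) (k u : ℕ) (hk : 1 ≤ k) (hu : 2 ≤ u) {δ : ℝ} (hδ : 0 < δ) :
    ∃ B X₀ : ℕ, ∀ X : ℕ, X₀ ≤ X → ∀ y : ℕ, ∀ S : Finset ℕ, S ⊆ Ioc y (y + X) →
      (∀ n ∈ S, GoodP f u X n) →
      ((S.filter (fun n => ¬ OnAP k (Real.log X ^ B) S n)).card : ℝ) ≤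
        δ * (X / Real.log X ^ Fintype.card ι) := by
  obtain ⟨-, h⟩ := main f hf k u hk hu
  obtain ⟨c, hc, B, X₁, h1⟩ := h δ hδ
  obtain ⟨X₂, h2⟩ := log_le_self (B + 1)
  refine ⟨B + 1, max X₁ X₂, fun X hX y S hS hG => ?_⟩
  obtain ⟨hX3, hX4, hX5⟩ := h2 X ((le_max_right _ _).trans hX)
  have hXr : (3 : ℝ) ≤ X := by exact_mod_cast hX3
  obtain ⟨D, hD⟩ : ∃ D : ℕ, D = ⌈Real.log X ^ B⌉₊ := ⟨_, rfl⟩
  have hlogB : 1 ≤ Real.log X ^ B := one_le_pow₀ (by linarith)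
  have hD1 : Real.log X ^ B ≤ D := by rw [hD]; exact Nat.le_ceil _
  have hD2 : (D : ℝ) ≤ Real.log X ^ (B + 1) := by
    have h3 := Nat.ceil_lt_add_one (show 0 ≤ Real.log X ^ B by linarith)
    rw [← hD] at h3
    rw [pow_succ]
    nlinarith
  have hD3 : D ≤ X := by exact_mod_cast hD2.trans hX4
  obtain ⟨T, hT⟩ : ∃ T : Finset ℕ, T = S.filter (fun n => ¬ OnAP k (Real.log X ^ (B + 1)) S n) := ⟨_, rfl⟩
  rw [← hT]
  by_contra hcon
  rw [not_le] at hcon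
  have hTS : T ⊆ S := by rw [hT]; exact filter_subset _ _
  obtain ⟨h3, -⟩ := h1 X ((le_max_left _ _).trans hX) y D hD1 hD3 T (hTS.trans hS)
    (fun n hn => hG n (hTS hn))
  have h4 := h3 hcon.le
  have hD0 : (0 : ℝ) < D := by linarith
  have hlog0 : 0 < Real.log X := by linarith
  have h5 : (0 : ℝ) < ((APs k D T).card : ℝ) := lt_of_lt_of_le (by positivity) h4
  have h6 : 0 < (APs k D T).card := by exact_mod_cast h5
  obtain ⟨q, hq⟩ := card_pos.1 h6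
  unfold APs at hq
  rw [mem_filter, mem_product, mem_Icc] at hq
  obtain ⟨⟨q1, q2, q3⟩, q4⟩ := hq
  have h7 : q.1 ∈ S.filter (fun n => ¬ OnAP k (Real.log X ^ (B + 1)) S n) := by rw [← hT]; exact q1
  rw [mem_filter] at h7
  apply h7.2
  refine ⟨q.1, q.2, q2, ?_, fun j hj => hTS (q4 j hj), 0, by omega, by simp⟩
  exact le_trans (by exact_mod_cast q3) hD2

/-- `m ≠ 0` is up to the sign a product of at most `j` primes, all larger than `w` -/
def AlmostPrime (j : ℕ) (w : ℝ) (m : ℤ) : Prop :=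
  m ≠ 0 ∧ m.natAbs.primeFactorsList.length ≤ j ∧ ∀ q : ℕ, q.Prime → (q : ℤ) ∣ m → w < q

theorem pow_le_of_rough {m : ℕ} (hm : m ≠ 0) {w : ℝ} (hw : 0 ≤ w)
    (h : ∀ q : ℕ, q.Prime → q ∣ m → w < q) : w ^ m.primeFactorsList.length ≤ m := by
  have h1 : ∀ l : List ℕ, (∀ q ∈ l, w < q) → w ^ l.length ≤ ((l.prod : ℕ) : ℝ) := by
    intro l
    induction l with
    | nil => intro _; simp
    | cons a l ih =>
      intro hl
      rw [List.length_cons, List.prod_cons, pow_succ, mul_comm, Nat.cast_mul]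
      have h2 := ih (fun q hq => hl q (List.mem_cons_of_mem _ hq))
      have h3 := hl a (List.mem_cons_self)
      exact mul_le_mul h3.le h2 (by positivity) (by linarith)
  have h2 := h1 m.primeFactorsList (fun q hq => h q (Nat.prime_of_mem_primeFactorsList hq)
    (Nat.dvd_of_mem_primeFactorsList hq))
  rwa [Nat.prod_primeFactorsList hm] at h2

/-- the number of prime factors of the values of a polynomial without small prime factors -/
theorem few_factors (g : ℤ[X]) (u E : ℕ) (hu : 1 ≤ u) : ∃ j X₀ : ℕ, u ≤ j ∧ ∀ X : ℕ, X₀ ≤ X → ∀ n : ℕ,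
    (n : ℝ) ≤ 2 * (X : ℝ) ^ (E + 1) →
    (∀ p : ℕ, p.Prime → (p : ℝ) ≤ (X : ℝ) ^ (1 / (u : ℝ)) → ¬ (p : ℤ) ∣ g.eval (n : ℤ)) →
    AlmostPrime j ((X : ℝ) ^ (1 / (j : ℝ))) (g.eval (n : ℤ)) := by
  obtain ⟨K, D, hKD⟩ := Pool.Agent.W123.RU.Poly.eval_bound g
  refine ⟨u * ((E + 2) * D + 2) , max (K + 3) (2 ^ u), ?_, ?_⟩
  · exact Nat.le_mul_of_pos_right u (Nat.succ_pos _)
  intro X hX n hn h
  have hXK : K + 3 ≤ X := (le_max_left _ _).trans hX
  have hXu : 2 ^ u ≤ X := (le_max_right _ _).trans hX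
  have hXKr : (K : ℝ) + 3 ≤ X := by exact_mod_cast hXK
  have hK0 : (0 : ℝ) ≤ K := Nat.cast_nonneg K
  have hX3 : (3 : ℝ) ≤ X := by linarith
  have hu0 : (0 : ℝ) < u := by exact_mod_cast hu
  obtain ⟨w, hw⟩ : ∃ w : ℝ, w = (X : ℝ) ^ (1 / (u : ℝ)) := ⟨_, rfl⟩
  have hX0 : (0 : ℝ) < X := by linarith
  have hwu : w ^ u = X := by
    rw [hw, ← Real.rpow_natCast, ← Real.rpow_mul hX0.le, one_div, inv_mul_cancel₀ hu0.ne', Real.rpow_one]
  have hw0 : 0 ≤ w := by rw [hw]; positivity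
  have hw2 : 2 ≤ w := by
    have h1 : (2 : ℝ) ^ u ≤ w ^ u := by rw [hwu]; exact_mod_cast hXu
    exact le_of_pow_le_pow_left₀ (by omega) hw0 h1
  rw [← hw] at h
  have hne : g.eval (n : ℤ) ≠ 0 := by
    intro h0
    apply h 2 Nat.prime_two (by exact_mod_cast hw2)
    rw [h0]
    exact dvd_zero _
  have hbig : ∀ q : ℕ, q.Prime → (q : ℤ) ∣ g.eval (n : ℤ) → w < q := by
    intro q hq hd
    by_contra hcon
    exact h q hq (not_lt.1 hcon) hd
  refine ⟨hne, ?_, ?_⟩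
  · have h1 := pow_le_of_rough (Int.natAbs_ne_zero.2 hne) hw0 (fun q hq hd => hbig q hq (Int.natCast_dvd.2 hd))
    obtain ⟨L, hL⟩ : ∃ L : ℕ, L = (g.eval (n : ℤ)).natAbs.primeFactorsList.length := ⟨_, rfl⟩
    rw [← hL] at h1 ⊢
    by_contra hcon
    rw [not_le] at hcon
    have h2 : w ^ (u * ((E + 2) * D + 2)) < w ^ L := pow_lt_pow_right₀ (by linarith) hcon
    have h3 : (((g.eval (n : ℤ)).natAbs : ℕ) : ℝ) ≤ (X : ℝ) ^ ((E + 2) * D + 2) := by
      have e1 : (((g.eval (n : ℤ)).natAbs : ℕ) : ℝ) = |((g.eval (n : ℤ) : ℤ) : ℝ)| := by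
        rw [Nat.cast_natAbs, Int.cast_abs]
      rw [e1]
      refine (hKD n).trans ?_
      have e2 : |((n : ℤ) : ℝ)| = (n : ℝ) := by
        rw [Int.cast_natCast, abs_of_nonneg (Nat.cast_nonneg _)]
      rw [e2]
      have h4 : 1 + (n : ℝ) ≤ (X : ℝ) ^ (E + 2) := by
        have h5 : (1 : ℝ) ≤ (X : ℝ) ^ (E + 1) := one_le_pow₀ (by linarith)
        calc 1 + (n : ℝ) ≤ 3 * (X : ℝ) ^ (E + 1) := by linarith
          _ ≤ X * (X : ℝ) ^ (E + 1) := mul_le_mul_of_nonneg_right hX3 (by positivity)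
          _ = _ := by ring
      calc (K : ℝ) * (1 + (n : ℝ)) ^ D ≤ X * ((X : ℝ) ^ (E + 2)) ^ D := by
            apply mul_le_mul (by linarith) (pow_le_pow_left₀ (by positivity) h4 D) (by positivity) (by linarith)
        _ = (X : ℝ) ^ ((E + 2) * D + 1) := by rw [← pow_mul]; ring
        _ ≤ (X : ℝ) ^ ((E + 2) * D + 2) := pow_le_pow_right₀ (by linarith) (by omega)
    rw [pow_mul, hwu] at h2
    linarith
  · intro q hq hd
    refine lt_of_le_of_lt ?_ (hbig q hq hd)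
    rw [hw]
    apply Real.rpow_le_rpow_of_exponent_le (by linarith)
    apply one_div_le_one_div_of_le hu0
    have : u ≤ u * ((E + 2) * D + 2) := Nat.le_mul_of_pos_right u (Nat.succ_pos _)
    exact_mod_cast this

open Classical in
/-- the arguments of almost prime values in the window -/
noncomputable def AV (f : ι → ℤ[X]) (j y X : ℕ) : Finset ℕ :=
  (Ioc y (y + X)).filter
    (fun n : ℕ => ∀ i, AlmostPrime j ((X : ℝ) ^ (1 / (j : ℝ))) ((f i).eval (n : ℤ)))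

theorem mem_AV (f : ι → ℤ[X]) (j y X n : ℕ) : n ∈ AV f j y X ↔ n ∈ Ioc y (y + X) ∧
    ∀ i, AlmostPrime j ((X : ℝ) ^ (1 / (j : ℝ))) ((f i).eval (n : ℤ)) := by
  classical
  unfold AV
  rw [mem_filter]

open Classical in
/-- **almost primes: many narrow progressions** -/
theorem almost_primes (f : ι → ℤ[X]) (hf : Sys f) (k : ℕ) (hk : 1 ≤ k) (E : ℕ) :
    ∃ j : ℕ, 1 ≤ j ∧ ∃ c : ℝ, 0 < c ∧ ∃ B X₀ : ℕ, ∀ X : ℕ, X₀ ≤ X → ∀ y : ℕ, y ≤ X ^ E → ∀ D : ℕ,
      Real.log X ^ B ≤ D → D ≤ X →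
      c * (X / Real.log X ^ Fintype.card ι) ≤ ((AV f j y X).card : ℝ) ∧
      c * (X * D / Real.log X ^ (Fintype.card ι * k)) ≤ ((APs k D (AV f j y X)).card : ℝ) := by
  obtain ⟨u, hu, c, hc, X₁, h1⟩ := low_sys f hf
  choose J X₂ hJ1 hJ2 using fun i => few_factors (f i) u E (by omega)
  obtain ⟨j, hj⟩ : ∃ j : ℕ, j = u + ∑ i, J i := ⟨_, rfl⟩
  obtain ⟨-, hm⟩ := main f hf k j hk (by omega)
  obtain ⟨c₂, hc₂, B, X₃, h3⟩ := hm c hc
  refine ⟨j, by omega, min c c₂, lt_min hc hc₂, B, max (max X₁ 1) (max (∑ i, X₂ i) X₃), ?_⟩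
  intro X hX y hy D hD hDX
  have hX1 : X₁ ≤ X := (le_max_left _ _).trans ((le_max_left _ _).trans hX)
  have hXone : 1 ≤ X := (le_max_right _ _).trans ((le_max_left _ _).trans hX)
  have hX2 : ∑ i, X₂ i ≤ X := (le_max_left _ _).trans ((le_max_right _ _).trans hX)
  have hX3 : X₃ ≤ X := (le_max_right _ _).trans ((le_max_right _ _).trans hX)
  have hXr : (1 : ℝ) ≤ X := by exact_mod_cast hXone
  obtain ⟨S, hS⟩ : ∃ S : Finset ℕ, S = AV f j y X := ⟨_, rfl⟩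
  rw [← hS]
  have hS1 : c * (X / Real.log X ^ Fintype.card ι) ≤ (S.card : ℝ) := by
    refine (h1 X hX1 y).trans ?_
    rw [Nat.cast_le]
    apply card_le_card
    intro n hn
    rw [mem_filter] at hn
    rw [hS, mem_AV]
    refine ⟨hn.1, fun i => ?_⟩
    have hi : X₂ i ≤ X := (Finset.single_le_sum (fun _ _ => Nat.zero_le _) (mem_univ i)).trans hX2
    have hij : J i ≤ j := by
      have := Finset.single_le_sum (f := J) (fun _ _ => Nat.zero_le _) (mem_univ i)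
      omega
    have hn1 := mem_Ioc.1 hn.1
    obtain ⟨a1, a2, a3⟩ := hJ2 i X hi n (by
      have h4 : n ≤ X ^ E + X := by omega
      have h5 : (n : ℝ) ≤ (X : ℝ) ^ E + X := by exact_mod_cast h4
      have h6 : (X : ℝ) ^ E ≤ (X : ℝ) ^ (E + 1) := pow_le_pow_right₀ hXr (by omega)
      have h7 : (X : ℝ) ≤ (X : ℝ) ^ (E + 1) := by
        calc (X : ℝ) = (X : ℝ) ^ 1 := (pow_one _).symm
          _ ≤ _ := pow_le_pow_right₀ hXr (by omega)
      linarith) (fun p hp hpX => hn.2 p hp hpX i)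
    refine ⟨a1, a2.trans hij, fun q hq hd => lt_of_le_of_lt ?_ (a3 q hq hd)⟩
    apply Real.rpow_le_rpow_of_exponent_le hXr
    have hJ0 : 0 < J i := by have := hJ1 i; omega
    exact one_div_le_one_div_of_le (by exact_mod_cast hJ0) (by exact_mod_cast hij)
  have hSs : S ⊆ Ioc y (y + X) := by
    intro n hn
    rw [hS, mem_AV] at hn
    exact hn.1
  have hSg : ∀ n ∈ S, GoodP f j X n := by
    intro n hn
    rw [hS, mem_AV] at hn
    refine Or.inr fun p hp hpX i hd => ?_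
    have := (hn.2 i).2.2 p hp hd
    linarith
  obtain ⟨h8, -⟩ := h3 X hX3 y D hD hDX S hSs hSg
  have hlog0 : 0 ≤ Real.log X := Real.log_nonneg hXr
  constructor
  · refine le_trans ?_ hS1
    exact mul_le_mul_of_nonneg_right (min_le_left _ _) (by positivity)
  · refine le_trans ?_ (h8 hS1)
    exact mul_le_mul_of_nonneg_right (min_le_right _ _) (by positivity)

open Classical in
/-- the `n ≤ x` with prime values -/
noncomputable def PV (f : ι → ℤ[X]) (x : ℕ) : Finset ℕ :=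
  (Ioc 0 x).filter (fun n : ℕ => ∀ i, ((f i).eval (n : ℤ)).natAbs.Prime)

/-- **the right order of the number of prime values and of progressions** -/
theorem equiv (f : ι → ℤ[X]) (hf : Sys f) (k : ℕ) (hk : 1 ≤ k) :
    (∃ c : ℝ, 0 < c ∧ ∃ x₀ : ℕ, ∀ x : ℕ, x₀ ≤ x →
      c * (x / Real.log x ^ Fintype.card ι) ≤ ((PV f x).card : ℝ)) ↔
    (∃ c : ℝ, 0 < c ∧ ∃ B x₀ : ℕ, ∀ x : ℕ, x₀ ≤ x → ∀ D : ℕ, Real.log x ^ B ≤ D → D ≤ x →
      c * (x * D / Real.log x ^ (Fintype.card ι * k)) ≤ ((APs k D (PV f x)).card : ℝ)) := by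
  obtain ⟨-, hm⟩ := main f hf k 2 hk le_rfl
  have hsub : ∀ x, PV f x ⊆ Ioc 0 (0 + x) := by
    intro x
    rw [zero_add]
    unfold PV
    exact filter_subset _ _
  have hgood : ∀ x, ∀ n ∈ PV f x, GoodP f 2 x n := by
    intro x n hn
    unfold PV at hn
    rw [mem_filter] at hn
    exact Or.inl hn.2
  constructor
  · rintro ⟨c, hc, x₀, h⟩
    obtain ⟨c₂, hc₂, B, X₀, h2⟩ := hm c hc
    refine ⟨c₂, hc₂, B, max x₀ X₀, fun x hx D hD hDx => ?_⟩
    exact (h2 x ((le_max_right _ _).trans hx) 0 D hD hDx (PV f x) (hsub x) (hgood x)).1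
      (h x ((le_max_left _ _).trans hx))
  · rintro ⟨c, hc, B, x₀, h⟩
    obtain ⟨c₂, hc₂, B₂, X₀, h2⟩ := hm c hc
    obtain ⟨X₁, h3⟩ := log_le_self (max B B₂)
    refine ⟨c₂, hc₂, max x₀ (max X₀ X₁), fun x hx => ?_⟩
    obtain ⟨e1, e2, e3⟩ := h3 x ((le_max_right _ _).trans ((le_max_right _ _).trans hx))
    have hl1 : 1 ≤ Real.log x := by linarith
    have e4 : Real.log x ^ B ≤ x := (pow_le_pow_right₀ hl1 (le_max_left _ _)).trans e2
    have e5 : Real.log x ^ B₂ ≤ x := (pow_le_pow_right₀ hl1 (le_max_right _ _)).trans e2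
    exact (h2 x ((le_max_left _ _).trans ((le_max_right _ _).trans hx)) 0 x e5 le_rfl (PV f x)
      (hsub x) (hgood x)).2 (h x ((le_max_left _ _).trans hx) x e4 le_rfl)

end Pool.Agent.Q53.NP
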