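import Pool.Agent.Q53.NP.Abs
import Pool.Agent.Y151.HS.FLC
import Pool.Agent.Y843.HS.CorA

/-!
# Many elements of a sifted set of dimension `r` in every window
-/

set_option autoImplicit false

namespace Pool.Agent.Q53.NP

open Finset Filter
open Pool.Agent.Y843.HS (Pr VV Pr_mem Pr_prime)
open Pool.Agent.Y843.AC

theorem log_small (A : ℝ) (L : ℕ) {η : ℝ} (hη : 0 < η) : ∃ x₀ : ℕ, ∀ x : ℕ, x₀ ≤ x →
    A * Real.log x ^ L ≤ (x : ℝ) ^ η := by
  have h1 := (isLittleO_log_rpow_rpow_atTop (L : ℝ) hη).bound (show (0 : ℝ) < 1 / (|A| + 1) by positivity)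
  have h2 := (tendsto_natCast_atTop_atTop (R := ℝ)).eventually (h1.and (eventually_ge_atTop (1 : ℝ)))
  rw [eventually_atTop] at h2
  obtain ⟨x₀, h⟩ := h2
  refine ⟨x₀, fun x hx => ?_⟩
  obtain ⟨h3, h4⟩ := h x hx
  have hl : 0 ≤ Real.log x := Real.log_nonneg h4
  rw [Real.rpow_natCast, Real.norm_of_nonneg (by positivity), Real.norm_of_nonneg (by positivity)] at h3
  have hA : 0 < |A| + 1 := by positivity
  calc A * Real.log x ^ L ≤ (|A| + 1) * Real.log x ^ L := by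
        apply mul_le_mul_of_nonneg_right _ (by positivity)
        linarith [le_abs_self A]
    _ ≤ (|A| + 1) * (1 / (|A| + 1) * (x : ℝ) ^ η) := mul_le_mul_of_nonneg_left h3 hA.le
    _ = _ := by field_simp

/-- a class modulo the small primes -/
theorem exists_class {Z : ℕ → Finset ℕ} (h : ∀ p : ℕ, p.Prime → (Z p).card < p) (s : ℕ) :
    ∃ a : ℕ, ∀ p ∈ Pr 0 s, a % p ∉ Z p := by
  classical
  have hc : ∀ p : ℕ, ∃ c : ℕ, p.Prime → c < p ∧ c ∉ Z p := by
    intro p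
    by_cases hp : p.Prime
    · have h1 : ∃ c ∈ range p, c ∉ Z p := by
        by_contra hcon
        push Not at hcon
        have h2 : range p ⊆ Z p := fun x hx => hcon x hx
        have h3 := card_le_card h2
        rw [card_range] at h3
        have := h p hp
        omega
      obtain ⟨c, hc1, hc2⟩ := h1
      exact ⟨c, fun _ => ⟨mem_range.1 hc1, hc2⟩⟩
    · exact ⟨0, fun h => absurd h hp⟩
  choose c hc using hc
  have hco : Set.Pairwise (↑(Pr 0 s) : Set ℕ) (Function.onFun Nat.Coprime (fun p : ℕ => p)) := by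
    intro p hp q hq hpq
    exact (Nat.coprime_primes (Pr_prime (by exact_mod_cast hp)) (Pr_prime (by exact_mod_cast hq))).2 hpq
  obtain ⟨a, ha⟩ := Nat.chineseRemainderOfFinset c (fun p => p) (Pr 0 s)
    (fun p hp => (Pr_prime hp).ne_zero) hco
  refine ⟨a, fun p hp => ?_⟩
  have h1 : a ≡ c p [MOD p] := ha p hp
  have h2 := hc p (Pr_prime hp)
  have h3 : a % p = c p := by
    have h4 : a % p = c p % p := h1
    rw [h4, Nat.mod_eq_of_lt h2.1]
  rw [h3]
  exact h2.2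

open Classical in
/-- **many elements in every window** -/
theorem low {d r : ℕ} {Z : ℕ → Finset ℕ} {v Cv : ℝ} (h : Dim d r Z v Cv) : ∃ u : ℕ, 1 ≤ u ∧
    ∃ c : ℝ, 0 < c ∧ ∃ X₀ : ℕ, ∀ X : ℕ, X₀ ≤ X → ∀ y : ℕ,
      c * (X / Real.log X ^ r) ≤ (((Ioc y (y + X)).filter (fun n => Rg Z u X n)).card : ℝ) := by
  obtain ⟨CF, hCF1, hCF⟩ := Pool.Agent.Y843.HS.FLc_of Pool.Agent.Y151.HS.flc
  have hv := h.v0
  obtain ⟨b, hb⟩ : ∃ b : ℕ, b = CF * (d + 1) := ⟨_, rfl⟩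
  have hb1 : 1 ≤ b := by rw [hb]; exact Nat.mul_pos hCF1 (by omega)
  obtain ⟨s, hs⟩ : ∃ s : ℕ, s = b + 3 := ⟨_, rfl⟩
  obtain ⟨C2, hC2⟩ : ∃ C2 : ℕ, C2 = CF * b + 2 := ⟨_, rfl⟩
  have hC20 : (0 : ℝ) < C2 := by rw [hC2]; positivity
  obtain ⟨DD, hDD⟩ : ∃ DD : ℕ, DD = ∏ p ∈ Pr 0 s, p := ⟨_, rfl⟩
  have hDD1 : 1 ≤ DD := by
    rw [hDD]
    exact Finset.prod_pos fun p hp => (Pr_prime hp).pos
  have hDDr : (1 : ℝ) ≤ DD := by exact_mod_cast hDD1
  obtain ⟨a, ha⟩ := exists_class (fun p hp => (h.few p hp).2.1) s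
  obtain ⟨X₁, hX₁⟩ := log_small (4 * DD / v) r (show (0 : ℝ) < 1 / C2 by positivity)
  refine ⟨2 * C2, by omega, v / (4 * DD), by positivity, max (max X₁ 3) ((2 ^ 2 ^ (s + 3)) ^ C2), ?_⟩
  intro X hX y
  have hXX₁ : X₁ ≤ X := (le_max_left _ _).trans ((le_max_left _ _).trans hX)
  have hX3 : 3 ≤ X := (le_max_right _ _).trans ((le_max_left _ _).trans hX)
  have hX4 : (2 ^ 2 ^ (s + 3)) ^ C2 ≤ X := (le_max_right _ _).trans hX
  obtain ⟨J, hJ2, hJX, hJX'⟩ := Pool.Agent.Y843.HS.exists_cross (P := fun J => (2 ^ 2 ^ J) ^ C2 ≤ X)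
    (a := s + 3) (b := s + 3 + X) (Nat.le_add_right _ _) hX4 (by
      rw [not_le]
      calc X < 2 ^ X := Nat.lt_two_pow_self
        _ ≤ 2 ^ 2 ^ (s + 3 + X) := Nat.pow_le_pow_right (by norm_num)
            ((Nat.le_add_left _ _).trans Nat.lt_two_pow_self.le)
        _ = (2 ^ 2 ^ (s + 3 + X)) ^ 1 := (pow_one _).symm
        _ ≤ (2 ^ 2 ^ (s + 3 + X)) ^ C2 := Nat.pow_le_pow_right (by positivity) (by omega))
  rw [not_le] at hJX'
  have hXr : (3 : ℝ) ≤ X := by exact_mod_cast hX3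
  have hX0 : (0 : ℝ) < X := by linarith
  obtain ⟨R, hR⟩ : ∃ R : ℕ, R = 2 ^ 2 ^ J := ⟨_, rfl⟩
  have hRr : ((2 : ℝ) ^ 2 ^ J) = R := by rw [hR]; push_cast; rfl
  rw [← hR] at hJX
  have hR1 : 1 ≤ R := by rw [hR]; exact Nat.one_le_two_pow
  have hXR : X < R ^ (2 * C2) := by
    have : 2 ^ 2 ^ (J + 1) = R ^ 2 := by rw [hR, ← pow_mul, pow_succ]
    rw [this, ← pow_mul] at hJX'
    exact hJX'
  have hRX : R ≤ X := by
    refine le_trans ?_ hJX
    calc R = R ^ 1 := (pow_one R).symm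
      _ ≤ R ^ C2 := Nat.pow_le_pow_right hR1 (by omega)
  have hsR : s ≤ R := by
    rw [hR]
    exact (show s ≤ J by omega).trans (Pool.Agent.Y843.HS.tower_ge J)
  have hR3 : 3 ≤ R := by omega
  -- the fundamental lemma
  have hSv : ∀ p ∈ Pr s (2 ^ 2 ^ J), (Z p).card ≤ d ∧ ∀ c ∈ Z p, c < p := fun p hp =>
    ⟨(h.few p (Pr_prime hp)).1, (h.few p (Pr_prime hp)).2.2⟩
  have hF := hCF d b s J hb.ge (by omega) Z hSv DD a y X hDD1 (by
    intro p hp hd
    rw [hDD, (Pr_prime hp).prime.dvd_finsetProd_iff] at hd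
    obtain ⟨q, hq, hdq⟩ := hd
    have h1 := (Nat.prime_dvd_prime_iff_eq (Pr_prime hp) (Pr_prime hq)).1 hdq
    have h2 := (Pr_mem.1 hp).1.1
    have h3 := (Pr_mem.1 hq).1.2
    omega)
  rw [← hR, hRr] at hF
  have hlow := (abs_le.1 hF).1
  obtain ⟨P, hP⟩ : ∃ P : ℝ, P = ∏ p ∈ Pr s R, (1 - ((Z p).card : ℝ) / p) := ⟨_, rfl⟩
  rw [← hP] at hlow
  have hPV : v / Real.log X ^ r ≤ P := by
    have h1 := h.lo R hR3
    have h2 := Pool.Agent.Y843.HS.VV_split Z (Nat.zero_le s) hsR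
    have h3 : 0 ≤ P := by
      rw [hP]
      exact prod_nonneg fun p hp => Pool.Agent.Y843.HS.one_sub_nonneg (h.few p (Pr_prime hp)).2.2
    have h4 : VV Z 0 s ≤ 1 := by
      unfold VV
      apply prod_le_one
      · exact fun p hp => Pool.Agent.Y843.HS.one_sub_nonneg (h.few p (Pr_prime hp)).2.2
      · intro p hp
        have : (0 : ℝ) ≤ ((Z p).card : ℝ) / p := by positivity
        linarith
    have h5 : VV Z 0 R ≤ P := by
      rw [← h2]
      have : VV Z s R = P := by rw [hP]; rfl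
      rw [this]
      exact mul_le_of_le_one_left h3 h4
    refine le_trans ?_ (h1.trans h5)
    have hl : 0 < Real.log R := Real.log_pos (by exact_mod_cast (show 1 < R by omega))
    have hl2 : Real.log R ≤ Real.log X := Real.log_le_log (by exact_mod_cast (show 0 < R by omega))
      (by exact_mod_cast hRX)
    apply div_le_div_of_nonneg_left hv.le (by positivity)
    exact pow_le_pow_left₀ hl.le hl2 r
  have hlogX : 0 < Real.log X := Real.log_pos (by linarith)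
  have hP0 : 0 ≤ P := le_trans (by positivity) hPV
  -- the error
  have hhalf : (1 / 2 : ℝ) ^ b ≤ 1 / 2 := by
    calc (1 / 2 : ℝ) ^ b ≤ (1 / 2 : ℝ) ^ 1 := pow_le_pow_of_le_one (by norm_num) (by norm_num) hb1
      _ = 1 / 2 := pow_one _
  have hRroot : (X : ℝ) ^ (1 / ((2 * C2 : ℕ) : ℝ)) < R := by
    have h1 : ((X : ℝ) ^ (1 / ((2 * C2 : ℕ) : ℝ))) ^ (2 * C2) < (R : ℝ) ^ (2 * C2) := by
      rw [← Real.rpow_natCast, ← Real.rpow_mul hX0.le, one_div, inv_mul_cancel₀ (by exact_mod_cast (show 2 * C2 ≠ 0 by omega)),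
        Real.rpow_one]
      exact_mod_cast hXR
    exact lt_of_pow_lt_pow_left₀ _ (Nat.cast_nonneg _) h1
  have herr : (R : ℝ) ^ (CF * b) ≤ X / DD * (v / Real.log X ^ r) / 4 := by
    have h1 := hX₁ X hXX₁
    have h2 : (X : ℝ) ^ (1 / (C2 : ℝ)) ≤ (R : ℝ) ^ 2 := by
      have h3 : (X : ℝ) ^ (1 / (C2 : ℝ)) = ((X : ℝ) ^ (1 / ((2 * C2 : ℕ) : ℝ))) ^ 2 := by
        rw [← Real.rpow_natCast, ← Real.rpow_mul hX0.le]
        congr 1
        push_cast
        field_simp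
      rw [h3]
      exact pow_le_pow_left₀ (by positivity) hRroot.le 2
    have h4 : (R : ℝ) ^ (CF * b) * (R : ℝ) ^ 2 ≤ X := by
      rw [← pow_add, ← hC2]
      exact_mod_cast hJX
    have h5 : (R : ℝ) ^ (CF * b) * (4 * DD / v * Real.log X ^ r) ≤ X := by
      refine le_trans ?_ h4
      exact mul_le_mul_of_nonneg_left (h1.trans h2) (by positivity)
    calc (R : ℝ) ^ (CF * b) = (R : ℝ) ^ (CF * b) * (4 * DD / v * Real.log X ^ r) *
          (v / Real.log X ^ r / (4 * DD)) := by field_simp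
      _ ≤ X * (v / Real.log X ^ r / (4 * DD)) := mul_le_mul_of_nonneg_right h5 (by positivity)
      _ = _ := by field_simp
  have hmain : (1 / 2 : ℝ) ^ b * ((X : ℝ) / DD * P) ≤ 1 / 2 * ((X : ℝ) / DD * P) :=
    mul_le_mul_of_nonneg_right hhalf (by positivity)
  have hXP : (X : ℝ) / DD * (v / Real.log X ^ r) ≤ (X : ℝ) / DD * P :=
    mul_le_mul_of_nonneg_left hPV (by positivity)
  have hgen : ∀ F : Finset ℕ, (∀ n ∈ F, n ∈ Ioc y (y + X) ∧ n % DD = a % DD ∧ ∀ p ∈ Pr s R, n % p ∉ Z p) →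
      -((1 / 2 : ℝ) ^ b * ((X : ℝ) / DD * P) + (R : ℝ) ^ (CF * b)) ≤ (F.card : ℝ) - (X : ℝ) / DD * P →
      v / (4 * DD) * (X / Real.log X ^ r) ≤
        (((Ioc y (y + X)).filter (fun n => Rg Z (2 * C2) X n)).card : ℝ) := by
    intro F hFm hFc
    have hcount : v / (4 * DD) * (X / Real.log X ^ r) ≤ (F.card : ℝ) := by
      have e1 : v / (4 * DD) * (X / Real.log X ^ r) = X / DD * (v / Real.log X ^ r) / 4 := by
        field_simp
      rw [e1]
      have h6 : 0 ≤ (X : ℝ) / DD * P := by positivity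
      linarith
    refine hcount.trans ?_
    rw [Nat.cast_le]
    apply card_le_card
    intro n hn
    rw [mem_filter]
    obtain ⟨hn1, hn2, hn3⟩ := hFm n hn
    refine ⟨hn1, fun p hp hpX => ?_⟩
    have hpR : p ≤ R := by exact_mod_cast (hpX.trans hRroot.le)
    by_cases hps : p ≤ s
    · have hmem : p ∈ Pr 0 s := Pr_mem.2 ⟨⟨hp.pos, hps⟩, hp⟩
      have hd : p ∣ DD := by rw [hDD]; exact Finset.dvd_prod_of_mem _ hmem
      have h7 : n % p = a % p := by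
        have h8 : n ≡ a [MOD DD] := hn2
        exact h8.of_dvd hd
      rw [h7]
      exact ha p hmem
    · exact hn3 p (Pr_mem.2 ⟨⟨by omega, hpR⟩, hp⟩)
  exact hgen _ (fun n hn => by
    rw [Pool.Agent.Y843.HS.BB, mem_filter] at hn
    exact ⟨hn.1, hn.2.1, hn.2.2⟩) hlow

end Pool.Agent.Q53.NP
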