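import Pool.Agent.Q53.NP.Two
import Pool.Agent.W123.RU.PolyV

/-!
# Systems of irreducible polynomials
-/

set_option autoImplicit false

namespace Pool.Agent.Q53.NP

open Finset Filter Polynomial
open Pool.Agent.Y843.HS (Pr VV Pr_mem Pr_prime)
open Pool.Agent.Y843.AC
open Pool.Agent.W123.RU.Poly (Sys Q)
open Pool.Agent.H373R2.T7 (nuB pz mem_pz PerB)
open Pool.Agent.W123.RP (Vq)

variable {ι : Type} [Fintype ι]

open Classical in
/-- the classes modulo `p` in which some value is divisible by `p` -/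
noncomputable def ZP (f : ι → ℤ[X]) (p : ℕ) : Finset ℕ := (range p).filter (fun r => Q f p r)

theorem card_ZP (f : ι → ℤ[X]) (p : ℕ) : (ZP f p).card = nuB (Q f) p := by
  classical
  unfold ZP nuB
  congr

theorem mem_ZP (f : ι → ℤ[X]) {p n : ℕ} (hp : p.Prime) : n % p ∈ ZP f p ↔ Q f p n := by
  classical
  unfold ZP
  rw [mem_filter, mem_range, Pool.Agent.W123.RU.Poly.per f p n]
  exact ⟨fun h => h.2, fun h => ⟨Nat.mod_lt _ hp.pos, h⟩⟩

theorem VV_ZP (f : ι → ℤ[X]) (y : ℕ) : VV (ZP f) 0 y = Vq (Q f) y := by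
  unfold VV Vq
  apply prod_congr
  · ext p
    rw [Pr_mem, mem_pz]
    constructor
    · rintro ⟨⟨h1, h2⟩, h3⟩
      exact ⟨h2, h3⟩
    · intro h
      exact ⟨⟨h.2.pos, h.1⟩, h.2⟩
  · intro p _
    rw [card_ZP]

theorem dim_of_sys (f : ι → ℤ[X]) (hf : Sys f) : ∃ (d : ℕ) (v Cv : ℝ),
    Dim d (Fintype.card ι) (ZP f) v Cv := by
  classical
  obtain ⟨c, hc, hQ⟩ := Pool.Agent.W123.RU.Poly.exists_c f hf
  obtain ⟨v, Cv, hv, hCv, hV⟩ := Pool.Agent.W123.RU.Poly.V_bounds f hf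
  refine ⟨c, v, Cv, ?_, hv, hCv, ?_, ?_⟩
  · intro p hp
    rw [card_ZP]
    refine ⟨hQ.few p hp, Pool.Agent.W123.RU.Poly.adm f hf p hp, ?_⟩
    intro x hx
    unfold ZP at hx
    exact mem_range.1 (mem_filter.1 hx).1
  · intro y hy
    rw [VV_ZP]
    exact (hV y hy).1
  · intro y hy
    rw [VV_ZP]
    exact (hV y hy).2

/-- no `f_i(n)` has a prime factor up to `X ^ (1 / u)` -/
def RoughP (f : ι → ℤ[X]) (u X n : ℕ) : Prop :=
  ∀ p : ℕ, p.Prime → (p : ℝ) ≤ (X : ℝ) ^ (1 / (u : ℝ)) → ∀ i, ¬ (p : ℤ) ∣ (f i).eval (n : ℤ)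

/-- all `|f_i(n)|` are primes, or no `f_i(n)` has a prime factor up to `X ^ (1 / u)` -/
def GoodP (f : ι → ℤ[X]) (u X n : ℕ) : Prop :=
  (∀ i, ((f i).eval (n : ℤ)).natAbs.Prime) ∨ RoughP f u X n

theorem RoughP_iff (f : ι → ℤ[X]) (u X n : ℕ) : RoughP f u X n ↔ Rg (ZP f) u X n := by
  unfold RoughP Rg
  constructor
  · intro h p hp hpX hm
    rw [mem_ZP f hp] at hm
    obtain ⟨i, hi⟩ := hm
    exact h p hp hpX i hi
  · intro h p hp hpX i hi
    apply h p hp hpX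
    rw [mem_ZP f hp]
    exact ⟨i, hi⟩

/-- few small values -/
theorem few_small (g : ℤ[X]) (hg : 0 < g.natDegree) (S : Finset ℕ) (w : ℕ)
    (hS : ∀ n ∈ S, (g.eval (n : ℤ)).natAbs ≤ w) : S.card ≤ g.natDegree * (2 * w + 1) := by
  classical
  have h1 : S.card ≤ ∑ t ∈ Icc (-(w : ℤ)) w, (S.filter (fun n : ℕ => g.eval (n : ℤ) = t)).card := by
    rw [← Finset.card_biUnion]
    · apply card_le_card
      intro n hn
      rw [mem_biUnion]
      refine ⟨g.eval (n : ℤ), ?_, mem_filter.2 ⟨hn, rfl⟩⟩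
      have := hS n hn
      rw [mem_Icc]
      omega
    · intro a _ b _ hab
      rw [Function.onFun, disjoint_left]
      intro n hn hn'
      rw [mem_filter] at hn hn'
      exact hab (hn.2.symm.trans hn'.2)
  refine h1.trans ?_
  calc ∑ t ∈ Icc (-(w : ℤ)) w, (S.filter (fun n : ℕ => g.eval (n : ℤ) = t)).card
      ≤ ∑ _t ∈ Icc (-(w : ℤ)) w, g.natDegree := by
        apply Finset.sum_le_sum
        intro t _
        have hne : g - C t ≠ 0 := by
          intro h0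
          have h2 : g = C t := sub_eq_zero.1 h0
          rw [h2, natDegree_C] at hg
          exact lt_irrefl _ hg
        calc (S.filter (fun n : ℕ => g.eval (n : ℤ) = t)).card ≤ (g - C t).roots.toFinset.card := by
              apply Finset.card_le_card_of_injOn (fun n : ℕ => (n : ℤ))
              · intro n hn
                rw [Finset.mem_coe, mem_filter] at hn
                rw [Finset.mem_coe, Multiset.mem_toFinset, mem_roots hne, IsRoot.def, eval_sub, eval_C,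
                  hn.2, sub_self]
              · intro a _ b _ hab
                have h3 : ((a : ℕ) : ℤ) = ((b : ℕ) : ℤ) := hab
                exact_mod_cast h3
          _ ≤ Multiset.card (g - C t).roots := Multiset.toFinset_card_le _
          _ ≤ (g - C t).natDegree := card_roots' _
          _ = g.natDegree := natDegree_sub_C
    _ = g.natDegree * (2 * w + 1) := by
        rw [Finset.sum_const, Int.card_Icc, smul_eq_mul, mul_comm]
        congr 1
        omega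

/-- good sets are almost rough -/
theorem most_of_good (f : ι → ℤ[X]) (hf : Sys f) (u X : ℕ) (hu : 2 ≤ u) (hX : 1 ≤ X) (S : Finset ℕ)
    (hS : ∀ n ∈ S, GoodP f u X n) : Most (ZP f) u X (3 * ∑ i, (f i).natDegree : ℕ) S := by
  classical
  obtain ⟨w, hw⟩ : ∃ w : ℝ, w = (X : ℝ) ^ (1 / (u : ℝ)) := ⟨_, rfl⟩
  have hXr : (1 : ℝ) ≤ X := by exact_mod_cast hX
  have hw1 : 1 ≤ w := by rw [hw]; exact Real.one_le_rpow hXr (by positivity)
  have hw2 : w ≤ (X : ℝ) ^ (1 / 2 : ℝ) := by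
    rw [hw]
    apply Real.rpow_le_rpow_of_exponent_le hXr
    exact one_div_le_one_div_of_le (by norm_num) (by exact_mod_cast hu)
  refine ⟨S.filter (fun n : ℕ => ∀ i, ⌊w⌋₊ < ((f i).eval (n : ℤ)).natAbs),
    S.filter (fun n : ℕ => ¬ ∀ i, ⌊w⌋₊ < ((f i).eval (n : ℤ)).natAbs), filter_subset _ _, ?_, ?_, ?_⟩
  · intro n hn
    rw [mem_union, mem_filter, mem_filter]
    by_cases h : ∀ i, ⌊w⌋₊ < ((f i).eval (n : ℤ)).natAbs
    · exact Or.inl ⟨hn, h⟩
    · exact Or.inr ⟨hn, h⟩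
  · intro n hn
    rw [mem_filter] at hn
    rw [← RoughP_iff]
    rcases hS n hn.1 with h | h
    · intro p hp hpX i hd
      have h1 : p ∣ ((f i).eval (n : ℤ)).natAbs := Int.natCast_dvd.1 hd
      have h2 := (Nat.prime_dvd_prime_iff_eq hp (h i)).1 h1
      have h3 := hn.2 i
      rw [← h2] at h3
      rw [← hw] at hpX
      have h4 : p ≤ ⌊w⌋₊ := Nat.le_floor hpX
      omega
    · exact h
  · have h1 : S.filter (fun n : ℕ => ¬ ∀ i, ⌊w⌋₊ < ((f i).eval (n : ℤ)).natAbs) ⊆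
        Finset.univ.biUnion (fun i => S.filter (fun n : ℕ => ((f i).eval (n : ℤ)).natAbs ≤ ⌊w⌋₊)) := by
      intro n hn
      rw [mem_filter] at hn
      obtain ⟨hn1, hn2⟩ := hn
      push Not at hn2
      obtain ⟨i, hi⟩ := hn2
      rw [mem_biUnion]
      exact ⟨i, mem_univ _, mem_filter.2 ⟨hn1, hi⟩⟩
    have h2 : (S.filter (fun n : ℕ => ¬ ∀ i, ⌊w⌋₊ < ((f i).eval (n : ℤ)).natAbs)).card ≤
        (∑ i, (f i).natDegree) * (2 * ⌊w⌋₊ + 1) := by
      refine (card_le_card h1).trans (card_biUnion_le.trans ?_)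
      rw [Finset.sum_mul]
      apply Finset.sum_le_sum
      intro i _
      exact few_small (f i) (hf.deg i) _ _ (fun n hn => (mem_filter.1 hn).2)
    have h3 : ((S.filter (fun n : ℕ => ¬ ∀ i, ⌊w⌋₊ < ((f i).eval (n : ℤ)).natAbs)).card : ℝ) ≤
        (∑ i, (f i).natDegree : ℕ) * (2 * ⌊w⌋₊ + 1) := by exact_mod_cast h2
    refine h3.trans ?_
    have h4 := Nat.floor_le (show 0 ≤ w by linarith)
    push_cast
    have h5 : (0 : ℝ) ≤ ∑ i, ((f i).natDegree : ℝ) := Finset.sum_nonneg fun _ _ => Nat.cast_nonneg _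
    calc (∑ i, ((f i).natDegree : ℝ)) * (2 * ⌊w⌋₊ + 1) ≤
          (∑ i, ((f i).natDegree : ℝ)) * (3 * (X : ℝ) ^ (1 / 2 : ℝ)) :=
          mul_le_mul_of_nonneg_left (by linarith) h5
      _ = _ := by ring

/-- **progressions of good integers in windows** -/
theorem main (f : ι → ℤ[X]) (hf : Sys f) (k u : ℕ) (hk : 1 ≤ k) (hu : 2 ≤ u) :
    (∃ C : ℝ, 0 < C ∧ ∃ B X₀ : ℕ, ∀ X : ℕ, X₀ ≤ X → ∀ y D : ℕ, Real.log X ^ B ≤ D →
      ∀ S : Finset ℕ, S ⊆ Ioc y (y + X) → (∀ n ∈ S, GoodP f u X n) →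
      ((APs k D S).card : ℝ) ≤ C * (X * D / Real.log X ^ (Fintype.card ι * k))) ∧
    (∀ δ : ℝ, 0 < δ → ∃ c : ℝ, 0 < c ∧ ∃ B X₀ : ℕ, ∀ X : ℕ, X₀ ≤ X → ∀ y D : ℕ,
      Real.log X ^ B ≤ D → D ≤ X → ∀ S : Finset ℕ, S ⊆ Ioc y (y + X) → (∀ n ∈ S, GoodP f u X n) →
      (δ * (X / Real.log X ^ Fintype.card ι) ≤ S.card →
        c * (X * D / Real.log X ^ (Fintype.card ι * k)) ≤ ((APs k D S).card : ℝ)) ∧
      (δ * (X * D / Real.log X ^ (Fintype.card ι * k)) ≤ ((APs k D S).card : ℝ) →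
        c * (X / Real.log X ^ Fintype.card ι) ≤ S.card)) := by
  obtain ⟨d, v, Cv, hD⟩ := dim_of_sys f hf
  obtain ⟨⟨C, hC, B, X₁, h1⟩, h2⟩ := core2 hD k u hk (by omega) (3 * ∑ i, (f i).natDegree : ℕ)
  constructor
  · refine ⟨C, hC, B, max X₁ 1, ?_⟩
    intro X hX y D hDX S hS hG
    exact h1 X ((le_max_left _ _).trans hX) y D hDX S hS
      (most_of_good f hf u X hu ((le_max_right _ _).trans hX) S hG)
  · intro δ hδ
    obtain ⟨c, hc, B₂, X₂, h3⟩ := h2 δ hδ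
    refine ⟨c, hc, B₂, max X₂ 1, ?_⟩
    intro X hX y D hDX hDX' S hS hG
    exact h3 X ((le_max_left _ _).trans hX) y D hDX hDX' S hS
      (most_of_good f hf u X hu ((le_max_right _ _).trans hX) S hG)

open Classical in
/-- **almost primes in windows** -/
theorem low_sys (f : ι → ℤ[X]) (hf : Sys f) : ∃ u : ℕ, 2 ≤ u ∧ ∃ c : ℝ, 0 < c ∧ ∃ X₀ : ℕ, ∀ X : ℕ,
    X₀ ≤ X → ∀ y : ℕ,
      c * (X / Real.log X ^ Fintype.card ι) ≤
        (((Ioc y (y + X)).filter (fun n => RoughP f u X n)).card : ℝ) := by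
  obtain ⟨d, v, Cv, hD⟩ := dim_of_sys f hf
  obtain ⟨u, hu, c, hc, X₀, h⟩ := low hD
  refine ⟨u + 1, by omega, c, hc, max X₀ 1, fun X hX y => ?_⟩
  refine (h X ((le_max_left _ _).trans hX) y).trans ?_
  rw [Nat.cast_le]
  apply card_le_card
  intro n hn
  rw [mem_filter] at hn ⊢
  refine ⟨hn.1, ?_⟩
  rw [RoughP_iff]
  intro p hp hpX
  apply hn.2 p hp
  refine hpX.trans ?_
  have hX1 : (1 : ℝ) ≤ X := by exact_mod_cast (le_max_right _ _).trans hX
  apply Real.rpow_le_rpow_of_exponent_le hX1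
  apply one_div_le_one_div_of_le (by exact_mod_cast hu)
  push_cast
  linarith

end Pool.Agent.Q53.NP
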