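import Pool.Agent.Q53.NP.Low

/-!
# The same with a small exceptional set
-/

set_option autoImplicit false

namespace Pool.Agent.Q53.NP

open Finset Filter
open Pool.Agent.Y843.HS (Pr VV Pr_mem Pr_prime)
open Pool.Agent.Y843.AC

/-- all but at most `K √X` elements of `S` are rough -/
def Most (Z : ℕ → Finset ℕ) (u X : ℕ) (K : ℝ) (S : Finset ℕ) : Prop :=
  ∃ S₁ S₂ : Finset ℕ, S₁ ⊆ S ∧ S ⊆ S₁ ∪ S₂ ∧ (∀ m ∈ S₁, Rg Z u X m) ∧
    (S₂.card : ℝ) ≤ K * (X : ℝ) ^ (1 / 2 : ℝ)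

/-- the exceptional elements are negligible -/
theorem negl (r k : ℕ) (K : ℝ) {η : ℝ} (hη : 0 < η) : ∃ X₀ : ℕ, ∀ X : ℕ, X₀ ≤ X → 3 ≤ X ∧
    ∀ N : ℝ, N ≤ K * (X : ℝ) ^ (1 / 2 : ℝ) → N ≤ η * (X / Real.log X ^ r) ∧
      k * N ≤ η * (X / Real.log X ^ (r * k)) := by
  obtain ⟨X₁, h1⟩ := log_small ((|K| + 1) * (k + 1) / η) (r + r * k) (show (0 : ℝ) < 1 / 2 by norm_num)
  refine ⟨max X₁ 3, fun X hX => ?_⟩
  have hX1 : X₁ ≤ X := (le_max_left _ _).trans hX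
  have hX3 : 3 ≤ X := (le_max_right _ _).trans hX
  have h2 := h1 X hX1
  have hXr : (3 : ℝ) ≤ X := by exact_mod_cast hX3
  have hX0 : (0 : ℝ) < X := by linarith
  have hlog1 : 1 ≤ Real.log X := by
    have h1 : Real.exp 1 ≤ X := by linarith [Real.exp_one_lt_d9]
    rw [← Real.log_exp 1]
    exact Real.log_le_log (Real.exp_pos 1) h1
  have hs : (X : ℝ) ^ (1 / 2 : ℝ) * (X : ℝ) ^ (1 / 2 : ℝ) = X := by
    rw [← Real.rpow_add hX0]
    norm_num
  obtain ⟨w, hw⟩ : ∃ w : ℝ, w = (X : ℝ) ^ (1 / 2 : ℝ) := ⟨_, rfl⟩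
  rw [← hw] at h2 hs ⊢
  have hw0 : 0 < w := by rw [hw]; positivity
  refine ⟨hX3, fun N hN => ?_⟩
  have hN' : N ≤ (|K| + 1) * w := by
    refine hN.trans (mul_le_mul_of_nonneg_right ?_ hw0.le)
    linarith [le_abs_self K]
  have hK : 0 < |K| + 1 := by positivity
  have key : ∀ j : ℕ, j ≤ r + r * k → (k + 1) * ((|K| + 1) * w) ≤ η * (X / Real.log X ^ j) := by
    intro j hj
    rw [← mul_div_assoc, le_div_iff₀ (by positivity)]
    have h3 : Real.log X ^ j ≤ Real.log X ^ (r + r * k) := pow_le_pow_right₀ hlog1 hj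
    rw [div_mul_eq_mul_div, div_le_iff₀ hη] at h2
    calc (k + 1) * ((|K| + 1) * w) * Real.log X ^ j
        ≤ (k + 1) * ((|K| + 1) * w) * Real.log X ^ (r + r * k) :=
          mul_le_mul_of_nonneg_left h3 (by positivity)
      _ = ((|K| + 1) * (k + 1) * Real.log X ^ (r + r * k)) * w := by ring
      _ ≤ (w * η) * w := mul_le_mul_of_nonneg_right h2 hw0.le
      _ = η * (w * w) := by ring
      _ = η * X := by rw [hs]
  have hk0 : (0 : ℝ) ≤ k := Nat.cast_nonneg k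
  constructor
  · refine le_trans ?_ (key r (Nat.le_add_right _ _))
    have : 0 ≤ k * ((|K| + 1) * w) := by positivity
    linarith
  · refine le_trans ?_ (key (r * k) (Nat.le_add_left _ _))
    have h5 : (k : ℝ) * N ≤ k * ((|K| + 1) * w) := mul_le_mul_of_nonneg_left hN' hk0
    have : 0 ≤ (|K| + 1) * w := by positivity
    linarith

/-- **progressions in almost rough sets in windows** -/
theorem core2 {d r : ℕ} {Z : ℕ → Finset ℕ} {v Cv : ℝ} (h : Dim d r Z v Cv) (k u : ℕ) (hk : 1 ≤ k)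
    (hu : 1 ≤ u) (K : ℝ) :
    (∃ C : ℝ, 0 < C ∧ ∃ B X₀ : ℕ, ∀ X : ℕ, X₀ ≤ X → ∀ y D : ℕ, Real.log X ^ B ≤ D →
      ∀ S : Finset ℕ, S ⊆ Ioc y (y + X) → Most Z u X K S →
      ((APs k D S).card : ℝ) ≤ C * (X * D / Real.log X ^ (r * k))) ∧
    (∀ δ : ℝ, 0 < δ → ∃ c : ℝ, 0 < c ∧ ∃ B X₀ : ℕ, ∀ X : ℕ, X₀ ≤ X → ∀ y D : ℕ,
      Real.log X ^ B ≤ D → D ≤ X → ∀ S : Finset ℕ, S ⊆ Ioc y (y + X) → Most Z u X K S →
      (δ * (X / Real.log X ^ r) ≤ S.card → c * (X * D / Real.log X ^ (r * k)) ≤ ((APs k D S).card : ℝ)) ∧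
      (δ * (X * D / Real.log X ^ (r * k)) ≤ ((APs k D S).card : ℝ) →
        c * (X / Real.log X ^ r) ≤ S.card)) := by
  obtain ⟨⟨C, hC, B, X₁, h1⟩, h2⟩ := core h k u hk hu
  have split : ∀ {S S₁ S₂ : Finset ℕ} {D : ℕ}, S ⊆ S₁ ∪ S₂ →
      ((APs k D S).card : ℝ) ≤ (APs k D S₁).card + ((k : ℝ) * S₂.card) * D := by
    intro S S₁ S₂ D hS
    have := APs_split hk (D := D) hS
    rw [← mul_assoc] at this
    exact_mod_cast this
  constructor
  · obtain ⟨X₂, hn⟩ := negl r k K (show (0 : ℝ) < 1 by norm_num)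
    refine ⟨C + 1, by positivity, B, max X₁ X₂, ?_⟩
    intro X hX y D hD S hS hM
    obtain ⟨S₁, S₂, s1, s2, s3, s4⟩ := hM
    obtain ⟨hX3, hn2⟩ := hn X ((le_max_right _ _).trans hX)
    obtain ⟨-, n2⟩ := hn2 _ s4
    have h3 := h1 X ((le_max_left _ _).trans hX) y D hD S₁ (s1.trans hS) s3
    have h4 := split (D := D) s2
    have h5 := mul_le_mul_of_nonneg_right n2 (Nat.cast_nonneg (α := ℝ) D)
    calc ((APs k D S).card : ℝ) ≤ C * (X * D / Real.log X ^ (r * k)) +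
          1 * (X / Real.log X ^ (r * k)) * D := by linarith
      _ = _ := by ring
  · intro δ hδ
    obtain ⟨c, hc, B₂, X₂, h3⟩ := h2 (δ / 2) (by positivity)
    obtain ⟨X₃, hn⟩ := negl r k K (show (0 : ℝ) < δ / 2 by positivity)
    refine ⟨c, hc, B₂, max X₂ X₃, ?_⟩
    intro X hX y D hD hDX S hS hM
    obtain ⟨S₁, S₂, s1, s2, s3, s4⟩ := hM
    obtain ⟨hX3, hn2⟩ := hn X ((le_max_right _ _).trans hX)
    obtain ⟨n1, n2⟩ := hn2 _ s4
    obtain ⟨h4, h5⟩ := h3 X ((le_max_left _ _).trans hX) y D hD hDX S₁ (s1.trans hS) s3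
    constructor
    · intro h6
      have h7 : (S.card : ℝ) ≤ S₁.card + S₂.card := by
        exact_mod_cast (card_le_card s2).trans (card_union_le _ _)
      have h8 := h4 (by linarith)
      refine h8.trans ?_
      exact_mod_cast card_le_card (APs_mono s1)
    · intro h6
      have h7 := split (D := D) s2
      have h8 := mul_le_mul_of_nonneg_right n2 (Nat.cast_nonneg (α := ℝ) D)
      have h9 : δ / 2 * (X / Real.log X ^ (r * k)) * D = δ / 2 * (X * D / Real.log X ^ (r * k)) := by ring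
      have h10 := h5 (by linarith)
      refine h10.trans ?_
      exact_mod_cast card_le_card s1

end Pool.Agent.Q53.NP
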